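import Mathlib

/-!
# Union-irreducible families: covered sets and bad sets

`Cov F X`: the set `X` is a union of members of `F`.
`Irr F`: no member of `F` is a union of members properly contained in it (every member has a
private point).
-/

set_option autoImplicit false
set_option linter.unusedSectionVars false

namespace Pool.Agent.Lib.MP_78e117_co.Upper

open Finset

variable {α : Type*} [DecidableEq α]

/-- `X` is a union of members of `F`. -/
def Cov (F : Finset (Finset α)) (X : Finset α) : Prop :=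
  ∀ x ∈ X, ∃ S ∈ F, S ⊆ X ∧ x ∈ S

/-- every member has a point which lies in no member properly contained in it. -/
def Irr (F : Finset (Finset α)) : Prop :=
  ∀ T ∈ F, ∃ x ∈ T, ∀ S ∈ F, S ⊂ T → x ∉ S

variable {F : Finset (Finset α)}

lemma cov_mem {T : Finset α} (h : T ∈ F) : Cov F T := fun _ hx => ⟨T, h, Subset.refl _, hx⟩

lemma cov_empty : Cov F (∅ : Finset α) := fun x hx => absurd hx (notMem_empty x)

lemma cov_union {X Y : Finset α} (hX : Cov F X) (hY : Cov F Y) : Cov F (X ∪ Y) := by
  intro x hx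
  rcases mem_union.1 hx with h | h
  · obtain ⟨S, hS, h1, h2⟩ := hX x h
    exact ⟨S, hS, h1.trans subset_union_left, h2⟩
  · obtain ⟨S, hS, h1, h2⟩ := hY x h
    exact ⟨S, hS, h1.trans subset_union_right, h2⟩

/-- a member is not the union of two covered proper subsets. -/
lemma irr_union (hF : Irr F) {T X Y : Finset α} (hT : T ∈ F) (hX : Cov F X) (hY : Cov F Y)
    (hXT : X ⊂ T) (hYT : Y ⊂ T) : X ∪ Y ≠ T := by
  intro h
  obtain ⟨x, hx, hpriv⟩ := hF T hT
  rw [← h] at hx
  rcases mem_union.1 hx with h1 | h1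
  · obtain ⟨S, hS, h2, h3⟩ := hX x h1
    exact hpriv S hS (lt_of_le_of_lt h2 hXT) h3
  · obtain ⟨S, hS, h2, h3⟩ := hY x h1
    exact hpriv S hS (lt_of_le_of_lt h2 hYT) h3

/-- `Z` is bad for the covered set `X`: all sets `X ∪ Z'` with `Z'` a nonempty proper subset of
`Z` are uncovered, and `X ∪ Z` is covered or has size `k`. -/
def Bad (F : Finset (Finset α)) (k : ℕ) (X Z : Finset α) : Prop :=
  2 ≤ Z.card ∧ Disjoint X Z ∧ X.card + Z.card ≤ k ∧ Cov F X ∧
    (∀ Z' ⊂ Z, Z'.Nonempty → ¬ Cov F (X ∪ Z')) ∧ (Cov F (X ∪ Z) ∨ X.card + Z.card = k)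

/-- the exits of `X`. -/
noncomputable def Ex [Fintype α] (F : Finset (Finset α)) (X : Finset α) : Finset α :=
  letI := Classical.decPred (fun z : α => z ∉ X ∧ ¬ Cov F (insert z X))
  univ.filter (fun z : α => z ∉ X ∧ ¬ Cov F (insert z X))

lemma mem_Ex [Fintype α] {X : Finset α} {z : α} :
    z ∈ Ex F X ↔ z ∉ X ∧ ¬ Cov F (insert z X) := by
  classical
  unfold Ex
  simp

/-- the bad sets of `X`. -/
noncomputable def BadSets [Fintype α] (F : Finset (Finset α)) (k : ℕ) (X : Finset α) :
    Finset (Finset α) :=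
  letI := Classical.decPred (fun Z : Finset α => Bad F k X Z)
  univ.filter (fun Z => Bad F k X Z)

lemma mem_BadSets [Fintype α] {k : ℕ} {X Z : Finset α} :
    Z ∈ BadSets F k X ↔ Bad F k X Z := by
  classical
  unfold BadSets
  simp

lemma Bad.subset_Ex [Fintype α] {k : ℕ} {X Z : Finset α} (h : Bad F k X Z) : Z ⊆ Ex F X := by
  intro z hz
  rw [mem_Ex]
  obtain ⟨h2, hd, _, _, hu, _⟩ := h
  refine ⟨fun hzX => (Finset.disjoint_left.1 hd hzX hz), ?_⟩
  have h1 : ({z} : Finset α) ⊂ Z := by
    refine ⟨by simpa using hz, fun hh => ?_⟩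
    have := card_le_card hh
    simp at this
    omega
  have := hu {z} h1 (singleton_nonempty z)
  rwa [union_comm, ← insert_eq] at this

/-- every set of `k - |X|` exits contains a bad set. -/
lemma exists_bad [Fintype α] {k : ℕ} {X W : Finset α} (hX : Cov F X) (hW : W ⊆ Ex F X)
    (hc : X.card + W.card = k) (h2 : 2 ≤ W.card) : ∃ Z ⊆ W, Bad F k X Z := by
  classical
  have hdisj : Disjoint X W := by
    rw [Finset.disjoint_right]
    intro a ha
    exact (mem_Ex.1 (hW ha)).1
  by_cases hex : ∃ Z, Z ⊆ W ∧ Z.Nonempty ∧ Cov F (X ∪ Z)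
  · -- take a minimal one
    let P : Finset (Finset α) := W.powerset.filter (fun Z => Z.Nonempty ∧ Cov F (X ∪ Z))
    have hP : P.Nonempty := by
      obtain ⟨Z, h1, h2, h3⟩ := hex
      exact ⟨Z, by simp [P, h1, h2, h3]⟩
    obtain ⟨Z, hZ, hmin⟩ := P.exists_min_image card hP
    have hZ' : Z ⊆ W ∧ Z.Nonempty ∧ Cov F (X ∪ Z) := by simpa [P] using hZ
    obtain ⟨hZW, hZne, hZc⟩ := hZ'
    have hcard : 2 ≤ Z.card := by
      by_contra hlt
      have h1 : Z.card = 1 := by
        have := hZne.card_pos
        omega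
      obtain ⟨z, rfl⟩ := card_eq_one.1 h1
      have hz : z ∈ Ex F X := hW (hZW (mem_singleton_self z))
      apply (mem_Ex.1 hz).2
      rwa [union_comm, ← insert_eq] at hZc
    refine ⟨Z, hZW, hcard, hdisj.mono_right hZW, ?_, hX, ?_, Or.inl hZc⟩
    · have := card_le_card hZW
      omega
    · intro Z' hZ' hne hcov
      have hmem : Z' ∈ P := by
        simp only [P, mem_filter, mem_powerset]
        exact ⟨hZ'.1.trans hZW, hne, hcov⟩
      have := hmin Z' hmem
      have := card_lt_card hZ'
      omega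
  · push Not at hex
    refine ⟨W, Subset.refl _, h2, hdisj, hc.le, hX, ?_, Or.inr hc⟩
    intro Z' hZ' hne
    exact hex Z' hZ'.1 hne

/-- a set `W` of exits contains at least `|W| - (k - |X| - 1)` bad sets. -/
lemma card_le_bad [Fintype α] {k : ℕ} {X : Finset α} (hX : Cov F X) (hk : X.card + 2 ≤ k) :
    ∀ (c : ℕ) (W : Finset α), W.card = c → W ⊆ Ex F X →
      W.card + 1 ≤ (k - X.card) + ((BadSets F k X).filter (· ⊆ W)).card := by
  intro c
  induction c with
  | zero =>
    intro W hc _
    omega
  | succ c ih =>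
    intro W hc hW
    by_cases hlt : W.card < k - X.card
    · omega
    · push Not at hlt
      obtain ⟨W1, hW1, hcard⟩ := exists_subset_card_eq hlt
      obtain ⟨Z, hZ, hbad⟩ := exists_bad (k := k) hX (hW1.trans hW) (by omega) (by omega)
      have hZne : Z.Nonempty := card_pos.1 (by have := hbad.1; omega)
      obtain ⟨z, hz⟩ := hZne
      have hzW : z ∈ W := hW1 (hZ hz)
      have h1 := ih (W.erase z) (by rw [card_erase_of_mem hzW]; omega)
        ((erase_subset _ _).trans hW)
      rw [card_erase_of_mem hzW] at h1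
      have h2 : ((BadSets F k X).filter (· ⊆ W.erase z)).card <
          ((BadSets F k X).filter (· ⊆ W)).card := by
        apply card_lt_card
        refine ⟨?_, ?_⟩
        · intro Y hY
          rw [mem_filter] at hY ⊢
          exact ⟨hY.1, hY.2.trans (erase_subset _ _)⟩
        · intro hh
          have hm : Z ∈ (BadSets F k X).filter (· ⊆ W) := by
            rw [mem_filter, mem_BadSets]
            exact ⟨hbad, hZ.trans hW1⟩
          have := (mem_filter.1 (hh hm)).2 hz
          simp at this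
      omega

end Pool.Agent.Lib.MP_78e117_co.Upper
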