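import Pool.Agent.Lib.MP_78e117_co.Upper.Basic

/-!
# The cost of the exits of a covered set
-/

set_option autoImplicit false
set_option linter.unusedSectionVars false

namespace Pool.Agent.Lib.MP_78e117_co.Upper

open Finset

variable {α : Type*} [DecidableEq α]

/-- weight of a subset. -/
noncomputable def wt (E : Finset α) (p : ℝ) (W : Finset α) : ℝ :=
  p ^ W.card * (1 - p) ^ (E.card - W.card)

lemma wt_nonneg {E : Finset α} {p : ℝ} (h0 : 0 ≤ p) (h1 : p ≤ 1) (W : Finset α) :
    0 ≤ wt E p W := by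
  unfold wt
  have : 0 ≤ 1 - p := by linarith
  positivity

lemma sum_wt_superset {E Z : Finset α} (hZ : Z ⊆ E) (p : ℝ) :
    ∑ W ∈ E.powerset with Z ⊆ W, wt E p W = p ^ Z.card := by
  have h1 : ∑ W ∈ E.powerset with Z ⊆ W, wt E p W =
      ∑ V ∈ (E \ Z).powerset, p ^ Z.card * (p ^ V.card * (1 - p) ^ ((E \ Z).card - V.card)) := by
    refine sum_bij' (fun W _ => W \ Z) (fun V _ => Z ∪ V) ?_ ?_ ?_ ?_ ?_
    · intro W hW
      rw [mem_filter, mem_powerset] at hW
      rw [mem_powerset]
      exact sdiff_subset_sdiff hW.1 (Subset.refl _)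
    · intro V hV
      rw [mem_powerset] at hV
      rw [mem_filter, mem_powerset]
      exact ⟨union_subset hZ (hV.trans sdiff_subset), subset_union_left⟩
    · intro W hW
      rw [mem_filter] at hW
      exact union_sdiff_of_subset hW.2
    · intro V hV
      rw [mem_powerset] at hV
      rw [union_sdiff_left]
      apply sdiff_eq_self_of_disjoint
      exact (disjoint_sdiff.mono_right hV).symm
    · intro W hW
      rw [mem_filter, mem_powerset] at hW
      have h2 : (W \ Z).card = W.card - Z.card := card_sdiff_of_subset hW.2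
      have h3 : (E \ Z).card = E.card - Z.card := card_sdiff_of_subset hZ
      have h4 := card_le_card hW.2
      have h5 := card_le_card hW.1
      unfold wt
      rw [h2, h3, ← mul_assoc, ← pow_add]
      congr 2
      · omega
      · omega
  rw [h1, ← mul_sum, sum_pow_mul_eq_add_pow]
  simp

lemma sum_wt {E : Finset α} (p : ℝ) : ∑ W ∈ E.powerset, wt E p W = 1 := by
  have := sum_wt_superset (empty_subset E) p
  simpa using this

/-- the averaging argument. -/
lemma avg_bound {E : Finset α} {H : Finset (Finset α)} {M p : ℝ} (h0 : 0 ≤ p) (h1 : p ≤ 1)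
    (hH : ∀ Z ∈ H, Z ⊆ E)
    (hW : ∀ W ⊆ E, (W.card : ℝ) ≤ M + ((H.filter (· ⊆ W)).card : ℝ)) :
    p * E.card ≤ M + ∑ Z ∈ H, p ^ Z.card := by
  have e1 : ∑ W ∈ E.powerset, wt E p W * (W.card : ℝ) = p * E.card := by
    have : ∀ W ∈ E.powerset, wt E p W * (W.card : ℝ) =
        ∑ z ∈ E, if {z} ⊆ W then wt E p W else 0 := by
      intro W hW
      rw [mem_powerset] at hW
      rw [← sum_filter, sum_const, nsmul_eq_mul, mul_comm]
      congr 2
      have h3 : E.filter (fun z => {z} ⊆ W) = W := by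
        ext z
        simp only [mem_filter, singleton_subset_iff]
        exact ⟨fun h => h.2, fun h => ⟨hW h, h⟩⟩
      rw [h3]
    rw [sum_congr rfl this, sum_comm]
    have : ∀ z ∈ E, (∑ W ∈ E.powerset, if {z} ⊆ W then wt E p W else 0) = p := by
      intro z hz
      rw [← sum_filter, sum_wt_superset (by simpa using hz)]
      simp
    rw [sum_congr rfl this, sum_const, nsmul_eq_mul, mul_comm]
  have e2 : ∑ W ∈ E.powerset, wt E p W * (M + ((H.filter (· ⊆ W)).card : ℝ)) =
      M + ∑ Z ∈ H, p ^ Z.card := by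
    have : ∀ W ∈ E.powerset, wt E p W * (M + ((H.filter (· ⊆ W)).card : ℝ)) =
        M * wt E p W + ∑ Z ∈ H, if Z ⊆ W then wt E p W else 0 := by
      intro W hW
      rw [← sum_filter, sum_const, nsmul_eq_mul]
      ring
    rw [sum_congr rfl this, sum_add_distrib, ← mul_sum, sum_wt, mul_one, sum_comm]
    congr 1
    refine sum_congr rfl fun Z hZ => ?_
    rw [← sum_filter, sum_wt_superset (hH Z hZ)]
  rw [← e1, ← e2]
  refine sum_le_sum fun W hWE => ?_
  exact mul_le_mul_of_nonneg_left (hW W (mem_powerset.1 hWE)) (wt_nonneg h0 h1 W)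

/-- comparison of weights. -/
lemma weight_le (s r : ℕ) (hr : 2 ≤ r) :
    ((s + 1 : ℝ) / (s + 2)) ^ r * (s + r) ≤ ((s + 1 : ℝ) / (s + 2)) ^ 2 * (s + 2) := by
  induction r, hr using Nat.le_induction with
  | base => norm_num
  | succ r hr ih =>
    refine le_trans ?_ ih
    rw [pow_succ, mul_assoc]
    refine mul_le_mul_of_nonneg_left ?_ (by positivity)
    rw [div_mul_eq_mul_div, div_le_iff₀ (by positivity)]
    have hr' : (2 : ℝ) ≤ r := by exact_mod_cast hr
    have hs : (0 : ℝ) ≤ s := by positivity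
    push_cast
    nlinarith

/-- the cost of the exits. -/
lemma cost_bound [Fintype α] {F : Finset (Finset α)} {k : ℕ} {X : Finset α} (hX : Cov F X)
    (hk : X.card + 2 ≤ k) :
    ((Ex F X).card : ℝ) / (X.card + 1) - ∑ Z ∈ BadSets F k X, (1 : ℝ) / (X.card + Z.card) ≤
      ((k : ℝ) - X.card - 1) * (X.card + 2) / (X.card + 1) ^ 2 := by
  set s := X.card with hs
  set p : ℝ := ((s : ℝ) + 1) / (s + 2) with hp
  have hs0 : (0 : ℝ) ≤ s := by positivity
  have h0 : 0 ≤ p := by positivity
  have h1 : p ≤ 1 := by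
    rw [hp, div_le_one (by positivity)]
    linarith
  have hav := avg_bound (E := Ex F X) (H := BadSets F k X) (M := (k : ℝ) - s - 1) h0 h1
    (fun Z hZ => (mem_BadSets.1 hZ).subset_Ex) (by
      intro W hW
      have := card_le_bad (k := k) hX (by omega) W.card W rfl hW
      have hsk : X.card ≤ k := by omega
      have h3 : ((W.card + 1 : ℕ) : ℝ) ≤
          (((k - X.card) + ((BadSets F k X).filter (· ⊆ W)).card : ℕ) : ℝ) := by
        exact_mod_cast this
      push_cast [Nat.cast_sub hsk] at h3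
      rw [hs]
      linarith)
  have hcost : ∑ Z ∈ BadSets F k X, p ^ Z.card / (p ^ 2 * (s + 2)) ≤
      ∑ Z ∈ BadSets F k X, (1 : ℝ) / (s + Z.card) := by
    refine sum_le_sum fun Z hZ => ?_
    have h2 := (mem_BadSets.1 hZ).1
    have h2' : (2 : ℝ) ≤ Z.card := by exact_mod_cast h2
    rw [div_le_div_iff₀ (by positivity) (by positivity), one_mul]
    exact weight_le s Z.card h2
  rw [← sum_div] at hcost
  have hp2 : p ^ 2 * (s + 2) = (s + 1) ^ 2 / (s + 2) := by
    rw [hp]
    field_simp
  rw [hp2] at hcost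
  have h5 : (p * (Ex F X).card - ((k : ℝ) - s - 1)) / ((s + 1) ^ 2 / (s + 2)) ≤
      ∑ Z ∈ BadSets F k X, (1 : ℝ) / (s + Z.card) := by
    refine le_trans ?_ hcost
    refine div_le_div_of_nonneg_right ?_ (by positivity)
    linarith
  have h6 : (p * (Ex F X).card - ((k : ℝ) - s - 1)) / ((s + 1) ^ 2 / (s + 2)) =
      ((Ex F X).card : ℝ) / (s + 1) - ((k : ℝ) - s - 1) * (s + 2) / (s + 1) ^ 2 := by
    rw [hp]
    field_simp
  linarith

end Pool.Agent.Lib.MP_78e117_co.Upper
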