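import Pool.Agent.Lib.MP_78e117_co.Upper.Local
import Pool.Agent.Lib.MP_78e117_co.Upper.Cost

/-!
# The weighted inequality
-/

set_option autoImplicit false
set_option linter.unusedSectionVars false

namespace Pool.Agent.Lib.MP_78e117_co.Upper

open Finset Classical

variable {α : Type*} [DecidableEq α] [Fintype α]

lemma reindex1 (g : Finset α → Finset α → ℝ) :
    ∑ T : Finset α, ∑ y ∈ T, g (T.erase y) T = ∑ X : Finset α, ∑ y ∈ Xᶜ, g X (insert y X) := by
  rw [sum_sigma', sum_sigma']
  refine sum_bij' (fun x _ => ⟨x.1.erase x.2, x.2⟩) (fun x _ => ⟨insert x.2 x.1, x.2⟩) ?_ ?_ ?_ ?_ ?_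
  · rintro ⟨T, y⟩ h
    simp
  · rintro ⟨X, y⟩ h
    simp
  · rintro ⟨T, y⟩ h
    simp only [mem_sigma, mem_univ, true_and] at h
    simp only [insert_erase h]
  · rintro ⟨X, y⟩ h
    simp only [mem_sigma, mem_univ, true_and, mem_compl] at h
    simp only [erase_insert h]
  · rintro ⟨T, y⟩ h
    simp only [mem_sigma, mem_univ, true_and] at h
    simp only [insert_erase h]

lemma reindex2 (g : Finset α → Finset α → ℝ) :
    ∑ T : Finset α, ∑ Z ∈ T.powerset, g (T \ Z) Z =
      ∑ X : Finset α, ∑ Z ∈ Xᶜ.powerset, g X Z := by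
  rw [sum_sigma', sum_sigma']
  refine sum_bij' (fun x _ => ⟨x.1 \ x.2, x.2⟩) (fun x _ => ⟨x.1 ∪ x.2, x.2⟩) ?_ ?_ ?_ ?_ ?_
  · rintro ⟨T, Z⟩ h
    simp only [mem_sigma, mem_univ, true_and, mem_powerset]
    intro a ha
    simp [ha]
  · rintro ⟨X, Z⟩ h
    simp only [mem_sigma, mem_univ, true_and, mem_powerset]
    exact subset_union_right
  · rintro ⟨T, Z⟩ h
    simp only [mem_sigma, mem_univ, true_and, mem_powerset] at h
    simp only [sdiff_union_of_subset h]
  · rintro ⟨X, Z⟩ h
    simp only [mem_sigma, mem_univ, true_and, mem_powerset] at h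
    have hd : Disjoint X Z := by
      rw [disjoint_left]
      intro a ha hz
      have := h hz
      rw [mem_compl] at this
      exact this ha
    simp only [union_sdiff_right]
    rw [sdiff_eq_self_of_disjoint hd]
  · rintro ⟨T, Z⟩ h
    rfl

variable {F : Finset (Finset α)} {k : ℕ}

/-- first double count. -/
lemma sum_dn : ∑ T : Finset α, (if 1 ≤ T.card ∧ T.card ≤ k then ((Dn F T).card : ℝ) / T.card else 0)
    = ∑ X : Finset α, (if Cov F X ∧ X.card < k then
        ((Fintype.card α : ℝ) - X.card) / (X.card + 1) else 0) := by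
  have h1 : ∀ T : Finset α,
      (if 1 ≤ T.card ∧ T.card ≤ k then ((Dn F T).card : ℝ) / T.card else 0) =
      ∑ y ∈ T, (if Cov F (T.erase y) ∧ T.card ≤ k then (1 : ℝ) / T.card else 0) := by
    intro T
    by_cases hk : T.card ≤ k
    · by_cases h1 : 1 ≤ T.card
      · rw [if_pos ⟨h1, hk⟩]
        simp only [hk, and_true]
        rw [← sum_filter, sum_const, nsmul_eq_mul]
        unfold Dn
        ring
      · have : T = ∅ := by
          rw [← card_eq_zero]
          omega
        subst this
        simp
    · simp [hk]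
  have h2 : ∀ X : Finset α, (if Cov F X ∧ X.card < k then
        ((Fintype.card α : ℝ) - X.card) / (X.card + 1) else 0) =
      ∑ y ∈ Xᶜ, (if Cov F X ∧ (insert y X).card ≤ k then (1 : ℝ) / (insert y X).card else 0) := by
    intro X
    have h3 : ∀ y ∈ Xᶜ, (if Cov F X ∧ (insert y X).card ≤ k then
        (1 : ℝ) / (insert y X).card else 0) =
        (if Cov F X ∧ X.card < k then (1 : ℝ) / (X.card + 1) else 0) := by
      intro y hy
      rw [mem_compl] at hy
      rw [card_insert_of_notMem hy]
      push_cast
      rfl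
    rw [sum_congr rfl h3, sum_const, nsmul_eq_mul, card_compl,
      Nat.cast_sub (card_le_univ X)]
    split_ifs
    · ring
    · ring
  rw [sum_congr rfl fun T _ => h1 T, sum_congr rfl fun X _ => h2 X]
  exact reindex1 (fun X T => if Cov F X ∧ T.card ≤ k then (1 : ℝ) / T.card else 0)

/-- second double count. -/
lemma sum_ex : ∑ T : Finset α, (if (1 ≤ T.card ∧ T.card < k) ∧ ¬ Cov F T then
      ((Dn F T).card : ℝ) / T.card else 0)
    = ∑ X : Finset α, (if Cov F X ∧ X.card + 1 < k then
        ((Ex F X).card : ℝ) / (X.card + 1) else 0) := by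
  have h1 : ∀ T : Finset α,
      (if (1 ≤ T.card ∧ T.card < k) ∧ ¬ Cov F T then ((Dn F T).card : ℝ) / T.card else 0) =
      ∑ y ∈ T, (if Cov F (T.erase y) ∧ T.card < k ∧ ¬ Cov F T then (1 : ℝ) / T.card else 0) := by
    intro T
    by_cases hk : T.card < k ∧ ¬ Cov F T
    · by_cases h1 : 1 ≤ T.card
      · rw [if_pos ⟨⟨h1, hk.1⟩, hk.2⟩]
        simp only [hk, and_true, not_false_eq_true]
        rw [← sum_filter, sum_const, nsmul_eq_mul]
        unfold Dn
        ring
      · have : T = ∅ := by
          rw [← card_eq_zero]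
          omega
        subst this
        simp
    · rw [if_neg (fun h => hk ⟨h.1.2, h.2⟩)]
      symm
      apply sum_eq_zero
      intro y _
      rw [if_neg (fun h => hk h.2)]
  have h2 : ∀ X : Finset α, (if Cov F X ∧ X.card + 1 < k then
        ((Ex F X).card : ℝ) / (X.card + 1) else 0) =
      ∑ y ∈ Xᶜ, (if Cov F X ∧ (insert y X).card < k ∧ ¬ Cov F (insert y X) then
        (1 : ℝ) / (insert y X).card else 0) := by
    intro X
    by_cases hX : Cov F X ∧ X.card + 1 < k
    · have h3 : ∀ y ∈ Xᶜ, (if Cov F X ∧ (insert y X).card < k ∧ ¬ Cov F (insert y X) then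
          (1 : ℝ) / (insert y X).card else 0) =
          (if ¬ Cov F (insert y X) then (1 : ℝ) / (X.card + 1) else 0) := by
        intro y hy
        rw [mem_compl] at hy
        rw [card_insert_of_notMem hy]
        push_cast
        simp [hX]
      rw [sum_congr rfl h3, if_pos hX, ← sum_filter, sum_const, nsmul_eq_mul]
      have h4 : Xᶜ.filter (fun y => ¬ Cov F (insert y X)) = Ex F X := by
        ext y
        rw [mem_filter, mem_compl, mem_Ex]
      rw [h4]
      ring
    · rw [if_neg hX]
      symm
      apply sum_eq_zero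
      intro y hy
      rw [mem_compl] at hy
      rw [card_insert_of_notMem hy, if_neg (fun h => hX ⟨h.1, h.2.1⟩)]
  rw [sum_congr rfl fun T _ => h1 T, sum_congr rfl fun X _ => h2 X]
  exact reindex1 (fun X T => if Cov F X ∧ T.card < k ∧ ¬ Cov F T then (1 : ℝ) / T.card else 0)

/-- the cost of `X`. -/
noncomputable def cost (F : Finset (Finset α)) (k : ℕ) (X : Finset α) : ℝ :=
  ∑ Z ∈ BadSets F k X, (1 : ℝ) / (X.card + Z.card)

lemma cost_nonneg (X : Finset α) : 0 ≤ cost F k X := by
  unfold cost
  exact sum_nonneg fun Z _ => by positivity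

/-- third double count. -/
lemma sum_zz : ∑ T : Finset α, (if 1 ≤ T.card ∧ T.card ≤ k then
      ((ZZ F k T).card : ℝ) / T.card else 0)
    = ∑ X : Finset α, cost F k X := by
  have h1 : ∀ T : Finset α,
      (if 1 ≤ T.card ∧ T.card ≤ k then ((ZZ F k T).card : ℝ) / T.card else 0) =
      ∑ Z ∈ T.powerset, (if Bad F k (T \ Z) Z then (1 : ℝ) / ((T \ Z).card + Z.card) else 0) := by
    intro T
    have h3 : ∀ Z ∈ T.powerset,
        (if Bad F k (T \ Z) Z then (1 : ℝ) / ((T \ Z).card + Z.card) else 0) =
        (if Bad F k (T \ Z) Z then (1 : ℝ) / T.card else 0) := by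
      intro Z hZ
      rw [mem_powerset] at hZ
      have : (T \ Z).card + Z.card = T.card := card_sdiff_add_card_eq_card hZ
      rw [← this]
      push_cast
      rfl
    rw [sum_congr rfl h3, ← sum_filter, sum_const, nsmul_eq_mul]
    by_cases hT : 1 ≤ T.card ∧ T.card ≤ k
    · rw [if_pos hT]
      unfold ZZ
      ring
    · rw [if_neg hT]
      have : T.powerset.filter (fun Z => Bad F k (T \ Z) Z) = ∅ := by
        rw [filter_eq_empty_iff]
        intro Z hZ hbad
        rw [mem_powerset] at hZ
        have h4 : (T \ Z).card + Z.card = T.card := card_sdiff_add_card_eq_card hZ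
        obtain ⟨h2, _, hk, _⟩ := hbad
        apply hT
        omega
      rw [this]
      simp
  have h2 : ∀ X : Finset α, cost F k X =
      ∑ Z ∈ Xᶜ.powerset, (if Bad F k X Z then (1 : ℝ) / (X.card + Z.card) else 0) := by
    intro X
    unfold cost
    rw [← sum_filter]
    apply sum_congr ?_ fun _ _ => rfl
    ext Z
    rw [mem_BadSets, mem_filter, mem_powerset]
    constructor
    · intro h
      refine ⟨?_, h⟩
      intro a ha
      rw [mem_compl]
      exact fun hX => disjoint_left.1 h.2.1 hX ha
    · exact fun h => h.2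
  rw [sum_congr rfl fun T _ => h1 T, sum_congr rfl fun X _ => h2 X]
  exact reindex2 (fun X Z => if Bad F k X Z then (1 : ℝ) / (X.card + Z.card) else 0)

/-- the slack at a covered set of size `s`. -/
noncomputable def sl (N k s : ℕ) : ℝ :=
  ((N : ℝ) - s) / (s + 1) - 1 - ((k : ℝ) - s - 1) * (s + 2) / (s + 1) ^ 2

/-- **the weighted inequality.** -/
theorem weighted (hF : Irr F) (hk : ∀ T ∈ F, T.card ≤ k) (h1 : 1 ≤ k) :
    ∑ T ∈ F, (1 - 1 / (T.card : ℝ)) +
      ∑ X : Finset α with Cov F X ∧ X.card < k, sl (Fintype.card α) k X.card + 1 ≤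
      ((Fintype.card α).choose k : ℝ) := by
  have hFne : ∀ T ∈ F, 1 ≤ T.card := by
    intro T hT
    obtain ⟨x, hx, _⟩ := hF T hT
    exact card_pos.2 ⟨x, hx⟩
  -- the local inequalities
  have hloc : ∀ T : Finset α,
      (if T ∈ F then 1 - 1 / (T.card : ℝ) else 0) +
        (if 1 ≤ T.card ∧ T.card ≤ k then ((ZZ F k T).card : ℝ) / T.card else 0) -
        (if (1 ≤ T.card ∧ T.card < k) ∧ ¬ Cov F T then ((Dn F T).card : ℝ) / T.card else 0) -
        (if T.card = k ∧ ¬ Cov F T then (1 : ℝ) else 0) ≤
      (if (1 ≤ T.card ∧ T.card ≤ k) ∧ Cov F T then (1 : ℝ) else 0) -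
        (if 1 ≤ T.card ∧ T.card ≤ k then ((Dn F T).card : ℝ) / T.card else 0) := by
    intro T
    by_cases hT1 : 1 ≤ T.card
    · rcases lt_trichotomy T.card k with hlt | heq | hgt
      · have := local_ineq (T := T) hF hT1 hlt
        have hne : T.card ≠ k := hlt.ne
        by_cases hc : Cov F T
        · simpa [hT1, hlt, hlt.le, hne, hc] using this
        · simpa [hT1, hlt, hlt.le, hne, hc] using this
      · have := local_top (T := T) (k := k) hF hT1
        by_cases hc : Cov F T
        · simpa [hT1, heq, h1, hc] using this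
        · simpa [hT1, heq, h1, hc] using this
      · have hTF : T ∉ F := fun h => by
          have := hk T h
          omega
        have h2 : ¬ T.card ≤ k := by omega
        have h3 : ¬ T.card < k := by omega
        have h4 : T.card ≠ k := by omega
        simp [hTF, h2, h3, h4]
    · have hT0 : T = ∅ := by
        rw [← card_eq_zero]
        omega
      subst hT0
      have hTF : (∅ : Finset α) ∉ F := fun h => by
        have := hFne _ h
        simp at this
      have h2 : ¬ (0 = k) := by omega
      simp [hTF, h2]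
  have hsum := sum_le_sum fun T (_ : T ∈ (univ : Finset (Finset α))) => hloc T
  rw [sum_sub_distrib, sum_sub_distrib, sum_add_distrib, sum_sub_distrib, sum_dn, sum_ex,
    sum_zz] at hsum
  -- the first sum
  have e1 : ∑ T : Finset α, (if T ∈ F then 1 - 1 / (T.card : ℝ) else 0) =
      ∑ T ∈ F, (1 - 1 / (T.card : ℝ)) := by
    rw [← sum_filter]
    apply sum_congr ?_ fun _ _ => rfl
    ext T
    simp
  -- number of covered sets
  have e2 : ∑ T : Finset α, (if (1 ≤ T.card ∧ T.card ≤ k) ∧ Cov F T then (1 : ℝ) else 0) =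
      ∑ T : Finset α, (if Cov F T ∧ T.card < k then (1 : ℝ) else 0) +
      ∑ T : Finset α, (if T.card = k ∧ Cov F T then (1 : ℝ) else 0) - 1 := by
    have h3 : (1 : ℝ) = ∑ T : Finset α, (if T = ∅ then (1 : ℝ) else 0) := by simp
    conv_rhs => rw [h3]
    rw [← sum_add_distrib, ← sum_sub_distrib]
    refine sum_congr rfl fun T _ => ?_
    by_cases hT0 : T = ∅
    · subst hT0
      have h2 : ¬ (0 = k) := by omega
      have h4 : 0 < k := by omega
      have h5 : Cov F (∅ : Finset α) := cov_empty
      simp [h2, h4, h5]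
    · have hT1 : 1 ≤ T.card := card_pos.2 (nonempty_iff_ne_empty.2 hT0)
      by_cases hc : Cov F T
      · rcases lt_trichotomy T.card k with hlt | heq | hgt
        · simp [hT0, hT1, hc, hlt, hlt.le, hlt.ne]
        · simp [hT0, hT1, hc, heq, h1]
        · have h2 : ¬ T.card ≤ k := by omega
          have h3 : ¬ T.card < k := by omega
          have h4 : T.card ≠ k := by omega
          simp [hT0, h2, h3, h4]
      · simp [hT0, hc]
  have e3 : ∑ T : Finset α, (if T.card = k ∧ Cov F T then (1 : ℝ) else 0) +
      ∑ T : Finset α, (if T.card = k ∧ ¬ Cov F T then (1 : ℝ) else 0) =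
      ((Fintype.card α).choose k : ℝ) := by
    rw [← sum_add_distrib]
    have : ∀ T ∈ (univ : Finset (Finset α)), (if T.card = k ∧ Cov F T then (1 : ℝ) else 0) +
        (if T.card = k ∧ ¬ Cov F T then (1 : ℝ) else 0) = if T.card = k then (1 : ℝ) else 0 := by
      intro T _
      by_cases hc : Cov F T <;> simp [hc]
    rw [sum_congr rfl this, ← sum_filter, sum_const, nsmul_eq_mul, mul_one]
    have h2 : (univ.filter (fun T : Finset α => T.card = k)) = powersetCard k univ := by
      ext T
      simp [mem_powersetCard]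
    rw [h2, card_powersetCard, card_univ]
  -- the covered sets pay for the exits
  have e4 : ∑ X : Finset α, (if Cov F X ∧ X.card + 1 < k then
        ((Ex F X).card : ℝ) / (X.card + 1) else 0) - ∑ X : Finset α, cost F k X ≤
      ∑ X : Finset α, (if Cov F X ∧ X.card < k then
        ((k : ℝ) - X.card - 1) * (X.card + 2) / (X.card + 1) ^ 2 else 0) := by
    rw [← sum_sub_distrib]
    refine sum_le_sum fun X _ => ?_
    by_cases hc : Cov F X
    · by_cases h2 : X.card + 1 < k
      · have h3 : X.card < k := by omega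
        have := cost_bound (k := k) hc (by omega)
        simp only [hc, h2, h3, and_true, if_true]
        exact this
      · have h0 := cost_nonneg (F := F) (k := k) X
        by_cases h3 : X.card < k
        · have h4 : k = X.card + 1 := by omega
          have h5 : (k : ℝ) - X.card - 1 = 0 := by
            rw [h4]
            push_cast
            ring
          simp only [hc, h2, h3, and_true, and_false, if_true, if_false, h5]
          simp
          exact h0
        · simp only [h2, h3, and_false, if_false]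
          linarith
    · have h0 := cost_nonneg (F := F) (k := k) X
      simp only [hc, false_and, if_false]
      linarith
  have e5 : ∑ X : Finset α with Cov F X ∧ X.card < k, sl (Fintype.card α) k X.card =
      ∑ X : Finset α, (if Cov F X ∧ X.card < k then
        ((Fintype.card α : ℝ) - X.card) / (X.card + 1) else 0) -
      ∑ T : Finset α, (if Cov F T ∧ T.card < k then (1 : ℝ) else 0) -
      ∑ X : Finset α, (if Cov F X ∧ X.card < k then
        ((k : ℝ) - X.card - 1) * (X.card + 2) / (X.card + 1) ^ 2 else 0) := by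
    rw [← sum_sub_distrib, ← sum_sub_distrib, sum_filter]
    refine sum_congr rfl fun X _ => ?_
    by_cases hX : Cov F X ∧ X.card < k
    · simp only [hX, and_true, if_true]
      rfl
    · simp only [hX, if_false]
      simp
  rw [e1, e2] at hsum
  rw [e5]
  linarith

end Pool.Agent.Lib.MP_78e117_co.Upper
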