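import Pool.Agent.Lib.MP_78e117_co.Upper.Basic

/-!
# From lattices to union-irreducible families
-/

set_option autoImplicit false
set_option linter.unusedSectionVars false

namespace Pool.Agent.Lib.MP_78e117_co.Upper

open Finset Classical

variable {L : Type*} [Lattice L] [Finite L]

/-- join-irreducible elements separate. -/
lemma exists_ji {a b : L} (h : ¬ a ≤ b) : ∃ j : L, (∃! y, y ⋖ j) ∧ j ≤ a ∧ ¬ j ≤ b := by
  obtain ⟨c, ⟨hca, hcb⟩, hmin⟩ := WellFounded.has_min (α := L) wellFounded_lt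
    {c : L | c ≤ a ∧ ¬ c ≤ b} ⟨a, le_rfl, h⟩
  have hlow : ∀ d, d < c → d ≤ b := by
    intro d hd
    by_contra hdb
    exact hmin d ⟨hd.le.trans hca, hdb⟩ hd
  have hlt : c ⊓ b < c := by
    refine lt_of_le_of_ne inf_le_left fun he => hcb ?_
    rw [← he]
    exact inf_le_right
  refine ⟨c, ⟨c ⊓ b, ⟨hlt, ?_⟩, ?_⟩, hca, hcb⟩
  · intro d h1 h2
    exact absurd (le_inf h2.le (hlow d h2)) (not_le_of_gt h1)
  · intro y hy
    have h1 : y ≤ c ⊓ b := le_inf hy.1.le (hlow y hy.1)
    rcases h1.lt_or_eq with h2 | h2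
    · exact absurd hlt (hy.2 h2)
    · exact h2

/-- in a finite lattice a proper inequality above an element with exactly one upper cover goes
through the cover. -/
lemma cover_le {m c m' : L} (hc : m ⋖ c) (hu : ∀ y, m ⋖ y → y = c) (h : m < m') : c ≤ m' := by
  obtain ⟨d, ⟨hd1, hd2⟩, hmin⟩ := WellFounded.has_min (α := L) wellFounded_lt
    {d : L | m < d ∧ d ≤ m'} ⟨m', h, le_rfl⟩
  have : m ⋖ d := ⟨hd1, fun e h1 h2 => hmin e ⟨h1, h2.le.trans hd2⟩ h2⟩
  rw [← hu d this]
  exact hd2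

variable (L) in
/-- join-irreducible elements. -/
abbrev JI := {x : L // ∃! y, y ⋖ x}

variable (L) in
noncomputable instance : Fintype (JI L) := Fintype.ofFinite _

/-- the join-irreducible elements not below `m`. -/
noncomputable def up (m : L) : Finset (JI L) := univ.filter (fun j => ¬ j.1 ≤ m)

lemma mem_up {m : L} {j : JI L} : j ∈ up m ↔ ¬ j.1 ≤ m := by
  unfold up
  simp

lemma up_subset {m m' : L} (h : up m' ⊆ up m) : m ≤ m' := by
  by_contra hn
  obtain ⟨j, hj, h1, h2⟩ := exists_ji hn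
  have h3 : (⟨j, hj⟩ : JI L) ∈ up m' := mem_up.2 h2
  exact mem_up.1 (h h3) h1

lemma up_injective : Function.Injective (up : L → Finset (JI L)) := fun a b hab =>
  le_antisymm (up_subset hab.ge) (up_subset hab.le)

variable (L) in
/-- the family of the meet-irreducible elements. -/
noncomputable def fam : Finset (Finset (JI L)) :=
  (Set.toFinite {m : L | ∃! y, m ⋖ y}).toFinset.image up

lemma card_fam : (fam L).card = {m : L | ∃! y, m ⋖ y}.ncard := by
  unfold fam
  rw [card_image_of_injective _ up_injective, Set.ncard_eq_toFinset_card _ (Set.toFinite _)]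

lemma irr_fam : Irr (fam L) := by
  intro T hT
  unfold fam at hT
  rw [mem_image] at hT
  obtain ⟨m, hm, rfl⟩ := hT
  simp only [Set.Finite.mem_toFinset, Set.mem_setOf_eq] at hm
  obtain ⟨c, hc, hu⟩ := hm
  obtain ⟨j, hj, h1, h2⟩ := exists_ji (not_le_of_gt hc.1)
  refine ⟨⟨j, hj⟩, mem_up.2 h2, ?_⟩
  intro S hS hSm hjS
  unfold fam at hS
  rw [mem_image] at hS
  obtain ⟨m', hm', rfl⟩ := hS
  have h3 : m ≤ m' := up_subset hSm.1
  have h4 : m ≠ m' := fun h => hSm.2 (by rw [h])
  have h5 : c ≤ m' := cover_le hc hu (lt_of_le_of_ne h3 h4)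
  exact mem_up.1 hjS (h1.trans h5)

end Pool.Agent.Lib.MP_78e117_co.Upper
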