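import Pool.Agent.Lib.MP_78e117_co.Upper.Basic

/-!
# The local inequality at one set
-/

set_option autoImplicit false
set_option linter.unusedSectionVars false

namespace Pool.Agent.Lib.MP_78e117_co.Upper

open Finset Classical

variable {α : Type*} [DecidableEq α]

/-- the removable sets of `T`. -/
noncomputable def Rem (F : Finset (Finset α)) (T : Finset α) : Finset (Finset α) :=
  T.powerset.filter (fun Y => Y.Nonempty ∧ Cov F (T \ Y) ∧
    ∀ Y' ⊂ Y, Y'.Nonempty → ¬ Cov F ((T \ Y) ∪ Y'))

/-- the covered lower neighbours of `T`. -/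
noncomputable def Dn (F : Finset (Finset α)) (T : Finset α) : Finset α :=
  T.filter (fun y => Cov F (T.erase y))

/-- the bad sets ending at `T`. -/
noncomputable def ZZ (F : Finset (Finset α)) (k : ℕ) (T : Finset α) : Finset (Finset α) :=
  T.powerset.filter (fun Z => Bad F k (T \ Z) Z)

variable {F : Finset (Finset α)} {k : ℕ} {T : Finset α}

lemma rem_disj {Y1 Y2 : Finset α} (h1 : Y1 ∈ Rem F T) (h2 : Y2 ∈ Rem F T) (hne : Y1 ≠ Y2) :
    Disjoint Y1 Y2 := by
  -- by symmetry we may assume `¬ Y1 ⊆ Y2`
  have key : ∀ Y1 Y2 : Finset α, Y1 ∈ Rem F T → Y2 ∈ Rem F T → ¬ Y1 ⊆ Y2 → Disjoint Y1 Y2 := by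
    intro Y1 Y2 h1 h2 hns
    by_contra hnd
    unfold Rem at h1 h2
    rw [mem_filter, mem_powerset] at h1 h2
    obtain ⟨hT1, hne1, hc1, hu1⟩ := h1
    obtain ⟨hT2, hne2, hc2, hu2⟩ := h2
    apply hu1 (Y1 \ Y2)
    · refine ⟨sdiff_subset, fun hh => hnd ?_⟩
      rw [disjoint_left]
      intro a ha
      exact (mem_sdiff.1 (hh ha)).2
    · rwa [sdiff_nonempty]
    · have : T \ Y1 ∪ Y1 \ Y2 = T \ Y1 ∪ T \ Y2 := by
        ext a
        simp only [mem_union, mem_sdiff]
        constructor
        · rintro (h | h)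
          · exact Or.inl h
          · exact Or.inr ⟨hT1 h.1, h.2⟩
        · rintro (h | h)
          · exact Or.inl h
          · by_cases ha : a ∈ Y1
            · exact Or.inr ⟨ha, h.2⟩
            · exact Or.inl ⟨h.1, ha⟩
      rw [this]
      exact cov_union hc1 hc2
  by_cases hs : Y1 ⊆ Y2
  · have : ¬ Y2 ⊆ Y1 := fun h => hne (Subset.antisymm hs h)
    exact (key Y2 Y1 h2 h1 this).symm
  · exact key Y1 Y2 h1 h2 hs

lemma rem_card_le : (Rem F T).card ≤ T.card := by
  calc (Rem F T).card = ∑ _Y ∈ Rem F T, 1 := by simp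
    _ ≤ ∑ Y ∈ Rem F T, Y.card := by
        refine sum_le_sum fun Y hY => ?_
        unfold Rem at hY
        rw [mem_filter] at hY
        exact hY.2.1.card_pos
    _ = ((Rem F T).biUnion id).card := by
        rw [card_biUnion]
        · rfl
        · intro Y1 h1 Y2 h2 hne
          exact rem_disj h1 h2 hne
    _ ≤ T.card := by
        apply card_le_card
        rw [biUnion_subset]
        intro Y hY
        unfold Rem at hY
        rw [mem_filter, mem_powerset] at hY
        exact hY.1

lemma rem_card_le_one (hF : Irr F) (h : T ∈ F ∨ ¬ Cov F T) : (Rem F T).card ≤ 1 := by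
  rw [card_le_one]
  intro Y1 h1 Y2 h2
  by_contra hne
  have hd := rem_disj h1 h2 hne
  unfold Rem at h1 h2
  rw [mem_filter, mem_powerset] at h1 h2
  obtain ⟨hT1, hne1, hc1, -⟩ := h1
  obtain ⟨hT2, hne2, hc2, -⟩ := h2
  have hU : T \ Y1 ∪ T \ Y2 = T := by
    ext a
    simp only [mem_union, mem_sdiff]
    constructor
    · rintro (h | h) <;> exact h.1
    · intro ha
      by_cases h1 : a ∈ Y1
      · exact Or.inr ⟨ha, disjoint_left.1 hd h1⟩
      · exact Or.inl ⟨ha, h1⟩
  rcases h with h | h
  · exact irr_union hF h hc1 hc2 (sdiff_ssubset hT1 hne1) (sdiff_ssubset hT2 hne2) hU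
  · apply h
    rw [← hU]
    exact cov_union hc1 hc2

lemma dn_add_zz_le_rem : (Dn F T).card + (ZZ F k T).card ≤ (Rem F T).card := by
  have h1 : (Dn F T).card = ((Dn F T).image (fun y => ({y} : Finset α))).card := by
    rw [card_image_of_injective]
    exact singleton_injective
  rw [h1, ← card_union_of_disjoint]
  · apply card_le_card
    apply union_subset
    · intro Y hY
      rw [mem_image] at hY
      obtain ⟨y, hy, rfl⟩ := hY
      unfold Dn at hy
      rw [mem_filter] at hy
      unfold Rem
      rw [mem_filter, mem_powerset]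
      refine ⟨by simpa using hy.1, singleton_nonempty y, ?_, ?_⟩
      · rw [sdiff_singleton_eq_erase]
        exact hy.2
      · intro Y' hY' hne
        rw [ssubset_singleton_iff] at hY'
        rw [hY'] at hne
        exact absurd hne (by simp)
    · intro Z hZ
      unfold ZZ at hZ
      rw [mem_filter, mem_powerset] at hZ
      obtain ⟨hZT, h2, hd, hk, hc, hu, ho⟩ := hZ
      unfold Rem
      rw [mem_filter, mem_powerset]
      exact ⟨hZT, card_pos.1 (by omega), hc, hu⟩
  · rw [disjoint_left]
    intro Y hY hZ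
    rw [mem_image] at hY
    obtain ⟨y, hy, rfl⟩ := hY
    unfold ZZ at hZ
    rw [mem_filter] at hZ
    have := hZ.2.1
    simp at this

/-- local inequality below the top level. -/
lemma local_ineq (hF : Irr F) (h1 : 1 ≤ T.card) (hk : T.card < k) :
    (if T ∈ F then 1 - 1 / (T.card : ℝ) else 0) + ((ZZ F k T).card : ℝ) / T.card -
      (if Cov F T then 0 else ((Dn F T).card : ℝ) / T.card) ≤
    (if Cov F T then 1 else 0) - ((Dn F T).card : ℝ) / T.card := by
  have ht : (0 : ℝ) < T.card := by exact_mod_cast h1
  have hle := dn_add_zz_le_rem (F := F) (k := k) (T := T)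
  by_cases hT : T ∈ F
  · have hc : Cov F T := cov_mem hT
    have h2 := hle.trans (rem_card_le_one hF (Or.inl hT))
    have h3 : ((Dn F T).card : ℝ) + (ZZ F k T).card ≤ 1 := by exact_mod_cast h2
    simp only [hT, hc, if_true, sub_zero]
    have h4 : (((Dn F T).card : ℝ) + (ZZ F k T).card) / T.card ≤ 1 / T.card :=
      div_le_div_of_nonneg_right h3 ht.le
    rw [add_div] at h4
    linarith
  · by_cases hc : Cov F T
    · have h2 := hle.trans rem_card_le
      have h3 : ((Dn F T).card : ℝ) + (ZZ F k T).card ≤ T.card := by exact_mod_cast h2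
      simp only [hT, hc, if_true, if_false, sub_zero, zero_add]
      have h4 : (((Dn F T).card : ℝ) + (ZZ F k T).card) / T.card ≤ 1 := by
        rw [div_le_one ht]
        exact h3
      rw [add_div] at h4
      linarith
    · have hz : ZZ F k T = ∅ := by
        rw [eq_empty_iff_forall_notMem]
        intro Z hZ
        unfold ZZ at hZ
        rw [mem_filter, mem_powerset] at hZ
        obtain ⟨hZT, h2, hd, hk', hc', hu, ho⟩ := hZ
        rw [sdiff_union_of_subset hZT] at ho
        rcases ho with ho | ho
        · exact hc ho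
        · rw [card_sdiff_of_subset hZT] at ho
          have := card_le_card hZT
          omega
      simp [hT, hc, hz]

/-- local inequality at the top level. -/
lemma local_top (hF : Irr F) (h1 : 1 ≤ T.card) :
    (if T ∈ F then 1 - 1 / (T.card : ℝ) else 0) + ((ZZ F k T).card : ℝ) / T.card -
      (if Cov F T then 0 else 1) ≤
    (if Cov F T then 1 else 0) - ((Dn F T).card : ℝ) / T.card := by
  have ht : (0 : ℝ) < T.card := by exact_mod_cast h1
  have hle := dn_add_zz_le_rem (F := F) (k := k) (T := T)
  by_cases hT : T ∈ F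
  · have hc : Cov F T := cov_mem hT
    have h2 := hle.trans (rem_card_le_one hF (Or.inl hT))
    have h3 : ((Dn F T).card : ℝ) + (ZZ F k T).card ≤ 1 := by exact_mod_cast h2
    simp only [hT, hc, if_true, sub_zero]
    have h4 : (((Dn F T).card : ℝ) + (ZZ F k T).card) / T.card ≤ 1 / T.card :=
      div_le_div_of_nonneg_right h3 ht.le
    rw [add_div] at h4
    linarith
  · have h2 := hle.trans rem_card_le
    have h3 : ((Dn F T).card : ℝ) + (ZZ F k T).card ≤ T.card := by exact_mod_cast h2
    have h4 : (((Dn F T).card : ℝ) + (ZZ F k T).card) / T.card ≤ 1 := by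
      rw [div_le_one ht]
      exact h3
    rw [add_div] at h4
    by_cases hc : Cov F T
    · simp only [hT, hc, if_true, if_false, sub_zero, zero_add]
      linarith
    · simp only [hT, hc, if_false, zero_add, zero_sub]
      linarith

end Pool.Agent.Lib.MP_78e117_co.Upper
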