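import Pool.Agent.Lib.MP_78e117_co.Upper.Basic

/-!
# Push down: an extremal family has members of size at most `⌈n/2⌉`
-/

set_option autoImplicit false
set_option linter.unusedSectionVars false

namespace Pool.Agent.Lib.MP_78e117_co.Upper

open Finset Classical

variable {α : Type*} [DecidableEq α] [Fintype α]

/-- one step: the top level `t` is replaced by level `t - 1`. -/
lemma push_step {F : Finset (Finset α)} {t : ℕ} (hF : Irr F) (ht : ∀ T ∈ F, T.card ≤ t + 1)
    (hN : Fintype.card α ≤ 2 * t) (ht1 : 1 ≤ t) :
    ∃ G : Finset (Finset α), Irr G ∧ (∀ T ∈ G, T.card ≤ t) ∧ F.card ≤ G.card := by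
  rcases isEmpty_or_nonempty α with hα | hα
  · refine ⟨F, hF, fun T _ => ?_, le_rfl⟩
    have : T = ∅ := eq_empty_of_isEmpty T
    rw [this]
    simp
  choose! pr hpr hpriv using hF
  let A : Finset (Finset α) := F.filter (fun T => T.card = t + 1)
  let B : Finset (Finset α) := F.filter (fun T => ¬ T.card = t + 1)
  let D : Finset (Finset α) := A.biUnion (fun T => (T.erase (pr T)).image (fun y => T.erase y))
  have hmemD : ∀ W, W ∈ D ↔ ∃ T ∈ F, T.card = t + 1 ∧ ∃ y ∈ T, y ≠ pr T ∧ T.erase y = W := by
    intro W
    simp only [D, A, mem_biUnion, mem_filter, mem_image, mem_erase]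
    constructor
    · rintro ⟨T, ⟨h1, h2⟩, y, ⟨h3, h4⟩, h5⟩
      exact ⟨T, h1, h2, y, h4, h3, h5⟩
    · rintro ⟨T, h1, h2, y, h4, h3, h5⟩
      exact ⟨T, ⟨h1, h2⟩, y, ⟨h3, h4⟩, h5⟩
  have hDcard : ∀ W ∈ D, W.card = t := by
    intro W hW
    obtain ⟨T, h1, h2, y, h4, h3, rfl⟩ := (hmemD W).1 hW
    rw [card_erase_of_mem h4, h2]
    rfl
  have hBcard : ∀ T ∈ B, T.card ≤ t := by
    intro T hT
    have h1 := mem_filter.1 hT
    have h2 := ht T h1.1
    have h3 := h1.2
    omega
  -- the new sets are not members
  have hDB : Disjoint B D := by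
    rw [disjoint_right]
    intro W hW hB
    obtain ⟨T, h1, h2, y, h4, h3, rfl⟩ := (hmemD W).1 hW
    have h5 := (mem_filter.1 hB).1
    exact hpriv T h1 _ h5 (erase_ssubset h4) (mem_erase.2 ⟨h3.symm, hpr T h1⟩)
  refine ⟨B ∪ D, ?_, ?_, ?_⟩
  · intro T hT
    rcases mem_union.1 hT with hB | hD
    · have hTF := (mem_filter.1 hB).1
      refine ⟨pr T, hpr T hTF, ?_⟩
      intro S hS hST
      rcases mem_union.1 hS with hSB | hSD
      · exact hpriv T hTF S (mem_filter.1 hSB).1 hST
      · have h1 := hDcard S hSD
        have h2 := hBcard T hB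
        have h3 := card_lt_card hST
        omega
    · obtain ⟨T', h1, h2, y, h4, h3, rfl⟩ := (hmemD T).1 hD
      refine ⟨pr T', mem_erase.2 ⟨h3.symm, hpr T' h1⟩, ?_⟩
      intro S hS hST
      rcases mem_union.1 hS with hSB | hSD
      · exact hpriv T' h1 S (mem_filter.1 hSB).1
          (lt_of_lt_of_le hST (erase_subset _ _))
      · have h5 := hDcard S hSD
        have h6 := card_lt_card hST
        rw [card_erase_of_mem h4, h2] at h6
        omega
  · intro T hT
    rcases mem_union.1 hT with hB | hD
    · exact hBcard T hB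
    · exact (hDcard T hD).le
  · rw [card_union_of_disjoint hDB]
    have hAB : F.card = A.card + B.card := by
      rw [← card_filter_add_card_filter_not (s := F) (fun T => T.card = t + 1)]
    have hAD : A.card ≤ D.card := by
      have h := card_mul_le_card_mul (fun (T W : Finset α) => ∃ y ∈ T, y ≠ pr T ∧ T.erase y = W)
        (s := A) (t := D) (m := t) (n := t) ?_ ?_
      · exact Nat.le_of_mul_le_mul_right h ht1
      · intro T hT
        have hT' := mem_filter.1 hT
        have h1 : ((T.erase (pr T)).image (fun y => T.erase y)).card = t := by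
          rw [card_image_of_injOn, card_erase_of_mem (hpr T hT'.1), hT'.2]
          · rfl
          · intro a ha b hb hab
            rw [mem_coe, mem_erase] at ha hb
            by_contra hne
            have : b ∈ T.erase a := mem_erase.2 ⟨Ne.symm hne, hb.2⟩
            simp only at hab
            rw [hab] at this
            simp at this
        rw [← h1]
        apply card_le_card
        intro W hW
        rw [mem_image] at hW
        obtain ⟨y, hy, rfl⟩ := hW
        rw [mem_erase] at hy
        rw [mem_bipartiteAbove]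
        exact ⟨(hmemD _).2 ⟨T, hT'.1, hT'.2, y, hy.2, hy.1, rfl⟩, y, hy.2, hy.1, rfl⟩
      · intro W hW
        have hWc := hDcard W hW
        have h1 : (A.bipartiteBelow (fun (T W : Finset α) => ∃ y ∈ T, y ≠ pr T ∧ T.erase y = W) W)
            ⊆ Wᶜ.image (fun y => insert y W) := by
          intro T hT
          rw [mem_bipartiteBelow] at hT
          obtain ⟨hTA, y, hy, hne, rfl⟩ := hT
          rw [mem_image]
          refine ⟨y, ?_, insert_erase hy⟩
          rw [mem_compl]
          simp
        refine (card_le_card h1).trans (card_image_le.trans ?_)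
        rw [card_compl, hWc]
        omega
    omega

/-- every union-irreducible family is at most as large as one with members of size at most
`k`, if `|α| ≤ 2 k` and `1 ≤ k`. -/
theorem push_down {k : ℕ} (hN : Fintype.card α ≤ 2 * k) (hk : 1 ≤ k) :
    ∀ (d : ℕ) (F : Finset (Finset α)), Irr F → (∀ T ∈ F, T.card ≤ k + d) →
      ∃ G : Finset (Finset α), Irr G ∧ (∀ T ∈ G, T.card ≤ k) ∧ F.card ≤ G.card := by
  intro d
  induction d with
  | zero =>
    intro F hF ht
    exact ⟨F, hF, ht, le_rfl⟩
  | succ d ih =>
    intro F hF ht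
    obtain ⟨G, hG, hGt, hc⟩ := push_step (t := k + d) hF (fun T hT => by
      have := ht T hT
      omega) (by omega) (by omega)
    obtain ⟨G', h1, h2, h3⟩ := ih G hG hGt
    exact ⟨G', h1, h2, hc.trans h3⟩

end Pool.Agent.Lib.MP_78e117_co.Upper
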