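import Pool.Agent.Lib.MP_78e117_co.Upper.Weighted2
import Pool.Agent.Lib.MP_78e117_co.Upper.Push
import Pool.Agent.Lib.MP_78e117_co.Upper.Latt

/-!
# Upper bounds for the number of meet-irreducible elements
-/

set_option autoImplicit false
set_option linter.unusedSectionVars false

namespace Pool.Agent.Lib.MP_78e117_co.Upper

open Finset

variable (L : Type) [Lattice L] [Finite L]

lemma card_JI {n : ℕ} (hn : {x : L | ∃! y, y ⋖ x}.ncard = n) : Fintype.card (JI L) = n := by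
  rw [← hn, ← Nat.card_eq_fintype_card]
  rfl

theorem exists_small {n k : ℕ} (hn : {x : L | ∃! y, y ⋖ x}.ncard = n) (hk : n ≤ 2 * k)
    (h1 : 1 ≤ k) : ∃ G : Finset (Finset (JI L)), Irr G ∧ (∀ T ∈ G, T.card ≤ k) ∧
      {m : L | ∃! y, m ⋖ y}.ncard ≤ G.card := by
  classical
  rw [← card_fam]
  have hc := card_JI L hn
  exact push_down (by rw [hc]; exact hk) h1 n (fam L) irr_fam (fun T _ => by
    have := card_le_univ T
    omega)

theorem upper_even {h : ℕ} (h2 : 2 ≤ h) (hn : {x : L | ∃! y, y ⋖ x}.ncard = 2 * h) :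
    ({m : L | ∃! y, m ⋖ y}.ncard : ℝ) ≤
      (1 + 1 / ((h : ℝ) - 1)) * (((2 * h).choose h : ℝ) - 2) := by
  classical
  obtain ⟨G, hG, hGk, hc⟩ := exists_small L (k := h) hn le_rfl (by omega)
  have := fam_even hG hGk h2 (card_JI L hn)
  have hc' : ({m : L | ∃! y, m ⋖ y}.ncard : ℝ) ≤ G.card := by exact_mod_cast hc
  have hh : (0 : ℝ) < (h : ℝ) - 1 := by
    have : (2 : ℝ) ≤ h := by exact_mod_cast h2
    linarith
  refine hc'.trans ?_
  have e : (1 + 1 / ((h : ℝ) - 1)) * (((2 * h).choose h : ℝ) - 2) =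
      h * (((2 * h).choose h : ℝ) - 2) / (h - 1) := by
    field_simp
    ring
  rw [e, le_div_iff₀ hh]
  exact this

theorem upper_odd {h : ℕ} (h2 : 2 ≤ h) (hn : {x : L | ∃! y, y ⋖ x}.ncard = 2 * h + 1) :
    ({m : L | ∃! y, m ⋖ y}.ncard : ℝ) ≤
      (1 + 1 / ((h : ℝ) - 1)) * ((2 * h + 1).choose h : ℝ) := by
  classical
  obtain ⟨G, hG, hGk, hc⟩ := exists_small L (k := h + 1) hn (by omega) (by omega)
  have := fam_odd hG hGk h2 (card_JI L hn)
  rw [Nat.choose_symm_half] at this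
  have hc' : ({m : L | ∃! y, m ⋖ y}.ncard : ℝ) ≤ G.card := by exact_mod_cast hc
  have hh : (0 : ℝ) < (h : ℝ) - 1 := by
    have : (2 : ℝ) ≤ h := by exact_mod_cast h2
    linarith
  refine hc'.trans ?_
  have e : (1 + 1 / ((h : ℝ) - 1)) * ((2 * h + 1).choose h : ℝ) =
      h * ((2 * h + 1).choose h : ℝ) / (h - 1) := by
    field_simp
    ring
  rw [e, le_div_iff₀ hh]
  exact this

end Pool.Agent.Lib.MP_78e117_co.Upper
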