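import Pool.Agent.Lib.MP_78e117_co.Upper.Global

/-!
# Second form of the weighted inequality, and the bounds for families with small members
-/

set_option autoImplicit false
set_option linter.unusedSectionVars false

namespace Pool.Agent.Lib.MP_78e117_co.Upper

open Finset Classical

variable {α : Type*} [DecidableEq α] [Fintype α] {F : Finset (Finset α)} {k : ℕ}

/-- the exits of the empty set are the singletons which are not members. -/
lemma card_ex_empty : ((Ex F (∅ : Finset α)).card : ℝ) =
    (Fintype.card α : ℝ) - ((F.filter (fun T => T.card = 1)).card : ℝ) := by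
  have h1 : (univ : Finset α).filter (fun z => ({z} : Finset α) ∈ F) ∪ Ex F (∅ : Finset α) =
      univ := by
    ext z
    simp only [mem_union, mem_filter, mem_univ, true_and, iff_true, mem_Ex, notMem_empty,
      not_false_eq_true]
    by_cases h : ({z} : Finset α) ∈ F
    · exact Or.inl h
    · right
      intro hc
      obtain ⟨S, hS, h1, h2⟩ := hc z (by simp)
      have : S = {z} := by
        apply Subset.antisymm
        · simpa using h1
        · simpa using h2
      rw [this] at hS
      exact h hS
  have h2 : Disjoint ((univ : Finset α).filter (fun z => ({z} : Finset α) ∈ F))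
      (Ex F (∅ : Finset α)) := by
    rw [disjoint_left]
    intro z hz he
    rw [mem_filter] at hz
    apply (mem_Ex.1 he).2
    exact cov_mem hz.2
  have h3 : ((univ : Finset α).filter (fun z => ({z} : Finset α) ∈ F)).card =
      (F.filter (fun T => T.card = 1)).card := by
    rw [← card_image_of_injective _ (singleton_injective (α := α))]
    congr 1
    ext T
    simp only [mem_image, mem_filter, mem_univ, true_and]
    constructor
    · rintro ⟨z, hz, rfl⟩
      exact ⟨hz, card_singleton z⟩
    · rintro ⟨hT, h1⟩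
      obtain ⟨z, rfl⟩ := card_eq_one.1 h1
      exact ⟨z, hT, rfl⟩
  have h4 := card_union_of_disjoint h2
  rw [h1, card_univ, h3] at h4
  rw [h4]
  push_cast
  ring

/-- **the weighted inequality, second form.** -/
theorem weighted2 (hF : Irr F) (hk : ∀ T ∈ F, T.card ≤ k) (h1 : 2 ≤ k) :
    ∑ T ∈ F, (1 - 1 / (T.card : ℝ)) +
      ∑ X : Finset α with (Cov F X ∧ X.card < k) ∧ X ≠ ∅, sl (Fintype.card α) k X.card +
      ((F.filter (fun T => T.card = 1)).card : ℝ) ≤
      ((Fintype.card α).choose k : ℝ) := by
  have hFne : ∀ T ∈ F, 1 ≤ T.card := by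
    intro T hT
    obtain ⟨x, hx, _⟩ := hF T hT
    exact card_pos.2 ⟨x, hx⟩
  have h1' : 1 ≤ k := by omega
  -- the local inequalities
  have hloc : ∀ T : Finset α,
      (if T ∈ F then 1 - 1 / (T.card : ℝ) else 0) +
        (if 1 ≤ T.card ∧ T.card ≤ k then ((ZZ F k T).card : ℝ) / T.card else 0) -
        (if (1 ≤ T.card ∧ T.card < k) ∧ ¬ Cov F T then ((Dn F T).card : ℝ) / T.card else 0) -
        (if T.card = k ∧ ¬ Cov F T then (1 : ℝ) else 0) ≤
      (if (1 ≤ T.card ∧ T.card ≤ k) ∧ Cov F T then (1 : ℝ) else 0) -
        (if 1 ≤ T.card ∧ T.card ≤ k then ((Dn F T).card : ℝ) / T.card else 0) := by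
    intro T
    by_cases hT1 : 1 ≤ T.card
    · rcases lt_trichotomy T.card k with hlt | heq | hgt
      · have := local_ineq (T := T) hF hT1 hlt
        have hne : T.card ≠ k := hlt.ne
        by_cases hc : Cov F T
        · simpa [hT1, hlt, hlt.le, hne, hc] using this
        · simpa [hT1, hlt, hlt.le, hne, hc] using this
      · have := local_top (T := T) (k := k) hF hT1
        by_cases hc : Cov F T
        · simpa [hT1, heq, h1', hc] using this
        · simpa [hT1, heq, h1', hc] using this
      · have hTF : T ∉ F := fun h => by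
          have := hk T h
          omega
        have h2 : ¬ T.card ≤ k := by omega
        have h3 : ¬ T.card < k := by omega
        have h4 : T.card ≠ k := by omega
        simp [hTF, h2, h3, h4]
    · have hT0 : T = ∅ := by
        rw [← card_eq_zero]
        omega
      subst hT0
      have hTF : (∅ : Finset α) ∉ F := fun h => by
        have := hFne _ h
        simp at this
      have h2 : ¬ (0 = k) := by omega
      simp [hTF, h2]
  have hsum := sum_le_sum fun T (_ : T ∈ (univ : Finset (Finset α))) => hloc T
  rw [sum_sub_distrib, sum_sub_distrib, sum_add_distrib, sum_sub_distrib, sum_dn, sum_ex,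
    sum_zz] at hsum
  -- the first sum
  have e1 : ∑ T : Finset α, (if T ∈ F then 1 - 1 / (T.card : ℝ) else 0) =
      ∑ T ∈ F, (1 - 1 / (T.card : ℝ)) := by
    rw [← sum_filter]
    apply sum_congr ?_ fun _ _ => rfl
    ext T
    simp
  -- number of covered sets
  have e2 : ∑ T : Finset α, (if (1 ≤ T.card ∧ T.card ≤ k) ∧ Cov F T then (1 : ℝ) else 0) =
      ∑ T : Finset α, (if Cov F T ∧ T.card < k then (1 : ℝ) else 0) +
      ∑ T : Finset α, (if T.card = k ∧ Cov F T then (1 : ℝ) else 0) - 1 := by
    have h3 : (1 : ℝ) = ∑ T : Finset α, (if T = ∅ then (1 : ℝ) else 0) := by simp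
    conv_rhs => rw [h3]
    rw [← sum_add_distrib, ← sum_sub_distrib]
    refine sum_congr rfl fun T _ => ?_
    by_cases hT0 : T = ∅
    · subst hT0
      have h2 : ¬ (0 = k) := by omega
      have h4 : 0 < k := by omega
      have h5 : Cov F (∅ : Finset α) := cov_empty
      simp [h2, h4, h5]
    · have hT1 : 1 ≤ T.card := card_pos.2 (nonempty_iff_ne_empty.2 hT0)
      by_cases hc : Cov F T
      · rcases lt_trichotomy T.card k with hlt | heq | hgt
        · simp [hT0, hT1, hc, hlt, hlt.le, hlt.ne]
        · simp [hT0, hc, heq, h1']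
        · have h2 : ¬ T.card ≤ k := by omega
          have h3 : ¬ T.card < k := by omega
          have h4 : T.card ≠ k := by omega
          simp [hT0, h2, h3, h4]
      · simp [hT0, hc]
  have e3 : ∑ T : Finset α, (if T.card = k ∧ Cov F T then (1 : ℝ) else 0) +
      ∑ T : Finset α, (if T.card = k ∧ ¬ Cov F T then (1 : ℝ) else 0) =
      ((Fintype.card α).choose k : ℝ) := by
    rw [← sum_add_distrib]
    have : ∀ T ∈ (univ : Finset (Finset α)), (if T.card = k ∧ Cov F T then (1 : ℝ) else 0) +
        (if T.card = k ∧ ¬ Cov F T then (1 : ℝ) else 0) = if T.card = k then (1 : ℝ) else 0 := by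
      intro T _
      by_cases hc : Cov F T <;> simp [hc]
    rw [sum_congr rfl this, ← sum_filter, sum_const, nsmul_eq_mul, mul_one]
    have h2 : (univ.filter (fun T : Finset α => T.card = k)) = powersetCard k univ := by
      ext T
      simp [mem_powersetCard]
    rw [h2, card_powersetCard, card_univ]
  -- the covered sets pay for the exits
  have e4 : ∑ X : Finset α, (if Cov F X ∧ X.card + 1 < k then
        ((Ex F X).card : ℝ) / (X.card + 1) else 0) - ∑ X : Finset α, cost F k X ≤
      ∑ X : Finset α, (if (Cov F X ∧ X.card < k) ∧ X ≠ ∅ then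
        ((k : ℝ) - X.card - 1) * (X.card + 2) / (X.card + 1) ^ 2 else 0) +
      ((Fintype.card α : ℝ) - ((F.filter (fun T => T.card = 1)).card : ℝ)) := by
    have h3 : ((Fintype.card α : ℝ) - ((F.filter (fun T => T.card = 1)).card : ℝ)) =
        ∑ X : Finset α, (if X = ∅ then ((Ex F (∅ : Finset α)).card : ℝ) else 0) := by
      rw [← card_ex_empty]
      simp
    rw [h3, ← sum_sub_distrib, ← sum_add_distrib]
    refine sum_le_sum fun X _ => ?_
    by_cases hX0 : X = ∅
    · subst hX0
      have h0 := cost_nonneg (F := F) (k := k) (∅ : Finset α)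
      have h5 : Cov F (∅ : Finset α) := cov_empty
      have h6 : 0 + 1 < k := by omega
      simp only [card_empty, h5, h6, and_true, if_true, ne_eq, not_true_eq_false, and_false,
        if_false]
      simp
      exact h0
    · by_cases hc : Cov F X
      · by_cases h2 : X.card + 1 < k
        · have h3 : X.card < k := by omega
          have := cost_bound (k := k) hc (by omega)
          simp only [hc, h2, h3, hX0, and_true, if_true, ne_eq, not_false_eq_true, if_false,
            add_zero]
          exact this
        · have h0 := cost_nonneg (F := F) (k := k) X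
          by_cases h3 : X.card < k
          · have h4 : k = X.card + 1 := by omega
            have h5 : (k : ℝ) - X.card - 1 = 0 := by
              rw [h4]
              push_cast
              ring
            simp only [hc, h2, h3, hX0, and_true, and_false, if_true, if_false, h5]
            simp
            exact h0
          · simp only [h2, h3, hX0, and_false, false_and, if_false]
            linarith
      · have h0 := cost_nonneg (F := F) (k := k) X
        simp only [hc, hX0, false_and, if_false]
        linarith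
  have e5 : ∑ X : Finset α with (Cov F X ∧ X.card < k) ∧ X ≠ ∅, sl (Fintype.card α) k X.card =
      ∑ X : Finset α, (if Cov F X ∧ X.card < k then
        ((Fintype.card α : ℝ) - X.card) / (X.card + 1) else 0) -
      ∑ T : Finset α, (if Cov F T ∧ T.card < k then (1 : ℝ) else 0) -
      ∑ X : Finset α, (if (Cov F X ∧ X.card < k) ∧ X ≠ ∅ then
        ((k : ℝ) - X.card - 1) * (X.card + 2) / (X.card + 1) ^ 2 else 0) -
      ((Fintype.card α : ℝ) - 1) := by
    have h3 : ((Fintype.card α : ℝ) - 1) =
        ∑ X : Finset α, (if X = ∅ then ((Fintype.card α : ℝ) - 1) else 0) := by simp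
    conv_rhs => rw [h3]
    rw [← sum_sub_distrib, ← sum_sub_distrib, ← sum_sub_distrib, sum_filter]
    refine sum_congr rfl fun X _ => ?_
    by_cases hX0 : X = ∅
    · subst hX0
      have h5 : Cov F (∅ : Finset α) := cov_empty
      have h4 : 0 < k := by omega
      simp [h5, h4]
    · by_cases hX : Cov F X ∧ X.card < k
      · simp only [hX, hX0, and_true, if_true, ne_eq, not_false_eq_true, if_false, sub_zero]
        rfl
      · simp only [hX, hX0, false_and, if_false]
        simp
  rw [e1, e2] at hsum
  rw [e5]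
  linarith

/-- the slack, `|α| = 2 k`. -/
lemma sl_even {k s : ℕ} : sl (2 * k) k s = (((k : ℝ) - s) * s + 1) / (s + 1) ^ 2 := by
  unfold sl
  push_cast
  field_simp
  ring

/-- the slack, `|α| = 2 h + 1`, `k = h + 1`. -/
lemma sl_odd {h s : ℕ} : sl (2 * h + 1) (h + 1) s = (((h : ℝ) - s) * s) / (s + 1) ^ 2 := by
  unfold sl
  push_cast
  field_simp
  ring

/-- families on `2 k` points with members of size at most `k`. -/
theorem fam_even (hF : Irr F) (hk : ∀ T ∈ F, T.card ≤ k) (h2 : 2 ≤ k)
    (hN : Fintype.card α = 2 * k) :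
    (F.card : ℝ) * (k - 1) ≤ k * (((2 * k).choose k : ℝ) - 2) := by
  have hw := weighted hF hk (by omega)
  rw [hN] at hw
  have hk0 : (0 : ℝ) < k := by exact_mod_cast (by omega : 0 < k)
  have hnn : ∀ X ∈ univ.filter (fun X : Finset α => Cov F X ∧ X.card < k),
      0 ≤ sl (2 * k) k X.card := by
    intro X hX
    rw [mem_filter] at hX
    rw [sl_even]
    have : (X.card : ℝ) ≤ k := by exact_mod_cast hX.2.2.le
    have h3 : (0 : ℝ) ≤ (k : ℝ) - X.card := by linarith
    positivity
  have hsub : insert (∅ : Finset α) (F.filter (fun T => T.card < k)) ⊆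
      univ.filter (fun X : Finset α => Cov F X ∧ X.card < k) := by
    intro X hX
    rw [mem_insert] at hX
    rw [mem_filter]
    refine ⟨mem_univ _, ?_⟩
    rcases hX with rfl | hX
    · exact ⟨cov_empty, by simp; omega⟩
    · rw [mem_filter] at hX
      exact ⟨cov_mem hX.1, hX.2⟩
  have h3 := sum_le_sum_of_subset_of_nonneg hsub (fun X hX _ => hnn X hX)
  have hnot : (∅ : Finset α) ∉ F.filter (fun T => T.card < k) := by
    intro h
    rw [mem_filter] at h
    obtain ⟨x, hx, _⟩ := hF _ h.1
    simp at hx
  rw [sum_insert hnot, sum_filter] at h3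
  have h0 : sl (2 * k) k (∅ : Finset α).card = 1 := by
    rw [sl_even]
    simp
  rw [h0] at h3
  have h4 : ∑ T ∈ F, (1 - 1 / (k : ℝ)) ≤
      ∑ T ∈ F, (1 - 1 / (T.card : ℝ)) +
      ∑ T ∈ F, (if T.card < k then sl (2 * k) k T.card else 0) := by
    rw [← sum_add_distrib]
    refine sum_le_sum fun T hT => ?_
    have hTk := hk T hT
    obtain ⟨x, hx, _⟩ := hF T hT
    have hT1 : 1 ≤ T.card := card_pos.2 ⟨x, hx⟩
    rcases hTk.lt_or_eq with hlt | heq
    · rw [if_pos hlt, sl_even]
      -- write k = s + m
      obtain ⟨m, hm⟩ := Nat.exists_eq_add_of_lt hlt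
      set s := T.card with hs
      have hs1 : (1 : ℝ) ≤ s := by exact_mod_cast hT1
      have hm' : (k : ℝ) = s + m + 1 := by rw [hm]; push_cast; ring
      have hm0 : (0 : ℝ) ≤ m := by positivity
      rw [hm']
      have key : 1 / (s : ℝ) - 1 / (s + m + 1) ≤ ((s + m + 1 - s) * s + 1) / ((s : ℝ) + 1) ^ 2 := by
        rw [div_sub_div _ _ (by positivity) (by positivity),
          div_le_div_iff₀ (by positivity) (by positivity)]
        rcases Nat.lt_or_ge 1 s with h1s | h1s
        · have hs2 : (2 : ℝ) ≤ s := by exact_mod_cast h1s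
          have : (1 * ((s : ℝ) + m + 1) - s * 1) * (s + 1) ^ 2 ≤
              ((m + 1) * s) * (s * (s + 1)) := by
            nlinarith [mul_nonneg hm0 (by linarith : (0 : ℝ) ≤ s), mul_self_nonneg ((s : ℝ) - 2)]
          refine this.trans ?_
          have h6 : (s : ℝ) * (s + 1) ≤ s * (s + m + 1) := by nlinarith
          calc ((m : ℝ) + 1) * s * (s * (s + 1)) ≤ ((m + 1) * s) * (s * (s + m + 1)) :=
                mul_le_mul_of_nonneg_left h6 (by positivity)
            _ ≤ ((s + m + 1 - s) * s + 1) * (s * (s + m + 1)) := by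
                refine mul_le_mul_of_nonneg_right ?_ (by positivity)
                nlinarith
        · have hs' : s = 1 := by omega
          rw [hs']
          push_cast
          nlinarith [mul_self_nonneg ((m : ℝ) + 1 - 1)]
      linarith
    · rw [if_neg (by omega), heq]
      simp
  rw [sum_const, nsmul_eq_mul] at h4
  have h5 : (F.card : ℝ) * (1 - 1 / k) ≤ ((2 * k).choose k : ℝ) - 2 := by linarith
  have h6 : (F.card : ℝ) * (k - 1) = k * (F.card * (1 - 1 / k)) := by
    field_simp
  rw [h6]
  exact mul_le_mul_of_nonneg_left h5 hk0.le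

/-- families on `2 h + 1` points with members of size at most `h + 1`. -/
theorem fam_odd {h : ℕ} (hF : Irr F) (hk : ∀ T ∈ F, T.card ≤ h + 1) (h2 : 2 ≤ h)
    (hN : Fintype.card α = 2 * h + 1) :
    (F.card : ℝ) * (h - 1) ≤ h * ((2 * h + 1).choose (h + 1) : ℝ) := by
  have hw := weighted2 hF hk (by omega)
  rw [hN] at hw
  have hh0 : (0 : ℝ) < h := by exact_mod_cast (by omega : 0 < h)
  have hnn : ∀ X ∈ univ.filter (fun X : Finset α => (Cov F X ∧ X.card < h + 1) ∧ X ≠ ∅),
      0 ≤ sl (2 * h + 1) (h + 1) X.card := by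
    intro X hX
    rw [mem_filter] at hX
    rw [sl_odd]
    have : (X.card : ℝ) ≤ h := by exact_mod_cast (by omega : X.card ≤ h)
    have h3 : (0 : ℝ) ≤ (h : ℝ) - X.card := by linarith
    positivity
  have hsub : F.filter (fun T => T.card < h + 1) ⊆
      univ.filter (fun X : Finset α => (Cov F X ∧ X.card < h + 1) ∧ X ≠ ∅) := by
    intro X hX
    rw [mem_filter] at hX
    rw [mem_filter]
    refine ⟨mem_univ _, ⟨cov_mem hX.1, hX.2⟩, ?_⟩
    rintro rfl
    obtain ⟨x, hx, _⟩ := hF _ hX.1
    simp at hx
  have h3 := sum_le_sum_of_subset_of_nonneg hsub (fun X hX _ => hnn X hX)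
  rw [sum_filter] at h3
  have h1c : ((F.filter (fun T => T.card = 1)).card : ℝ) =
      ∑ T ∈ F, (if T.card = 1 then (1 : ℝ) else 0) := by
    rw [← sum_filter, sum_const, nsmul_eq_mul, mul_one]
  have h4 : ∑ T ∈ F, (1 - 1 / (h : ℝ)) ≤
      ∑ T ∈ F, (1 - 1 / (T.card : ℝ)) +
      ∑ T ∈ F, (if T.card < h + 1 then sl (2 * h + 1) (h + 1) T.card else 0) +
      ∑ T ∈ F, (if T.card = 1 then (1 : ℝ) else 0) := by
    rw [← sum_add_distrib, ← sum_add_distrib]
    refine sum_le_sum fun T hT => ?_
    have hTk := hk T hT
    obtain ⟨x, hx, _⟩ := hF T hT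
    have hT1 : 1 ≤ T.card := card_pos.2 ⟨x, hx⟩
    rcases Nat.lt_or_ge T.card (h + 1) with hlt | hge
    · rw [if_pos hlt, sl_odd]
      obtain ⟨m, hm⟩ := Nat.exists_eq_add_of_le (by omega : T.card ≤ h)
      set s := T.card with hs
      have hs1 : (1 : ℝ) ≤ s := by exact_mod_cast hT1
      have hm' : (h : ℝ) = s + m := by rw [hm]; push_cast; ring
      have hm0 : (0 : ℝ) ≤ m := by positivity
      rcases Nat.lt_or_ge 1 s with h1s | h1s
      · rw [if_neg (by omega), add_zero, hm']
        have hs2 : (2 : ℝ) ≤ s := by exact_mod_cast h1s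
        have key : 1 / (s : ℝ) - 1 / (s + m) ≤ ((s + m - s) * s) / ((s : ℝ) + 1) ^ 2 := by
          rw [div_sub_div _ _ (by positivity) (by positivity),
            div_le_div_iff₀ (by positivity) (by positivity)]
          rcases Nat.eq_zero_or_pos m with rfl | hmp
          · push_cast
            nlinarith
          · have hm1 : (1 : ℝ) ≤ m := by exact_mod_cast hmp
            have h7 : ((s : ℝ) + 1) ^ 2 ≤ s * (s * (s + 1)) := by nlinarith
            have h8 : (s : ℝ) * (s + 1) ≤ s * (s + m) := by nlinarith
            calc (1 * ((s : ℝ) + m) - s * 1) * ((s : ℝ) + 1) ^ 2 =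
                  (m : ℝ) * ((s : ℝ) + 1) ^ 2 := by ring
              _ ≤ (m : ℝ) * ((s : ℝ) * (s * (s + 1))) := mul_le_mul_of_nonneg_left h7 hm0
              _ ≤ (m : ℝ) * ((s : ℝ) * (s * (s + m))) := by
                  refine mul_le_mul_of_nonneg_left ?_ hm0
                  exact mul_le_mul_of_nonneg_left h8 (by linarith)
              _ = ((s : ℝ) + m - s) * s * (s * (s + m)) := by ring
        linarith
      · have hs' : s = 1 := by omega
        rw [if_pos hs', hs']
        have h9 : (0 : ℝ) ≤ ((h : ℝ) - ((1 : ℕ) : ℝ)) * ((1 : ℕ) : ℝ) / (((1 : ℕ) : ℝ) + 1) ^ 2 := by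
          have : (1 : ℝ) ≤ h := by exact_mod_cast (by omega : 1 ≤ h)
          have h10 : (0 : ℝ) ≤ (h : ℝ) - ((1 : ℕ) : ℝ) := by push_cast; linarith
          positivity
        have h10 : (0 : ℝ) ≤ 1 / (h : ℝ) := by positivity
        have h11 : (1 : ℝ) - 1 / ((1 : ℕ) : ℝ) = 0 := by norm_num
        linarith
    · have heq : T.card = h + 1 := by omega
      have hne1 : T.card ≠ 1 := by omega
      rw [if_neg (by omega), if_neg hne1, heq]
      have : (1 : ℝ) / ((h + 1 : ℕ) : ℝ) ≤ 1 / h := by
        apply one_div_le_one_div_of_le hh0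
        push_cast
        linarith
      linarith
  rw [sum_const, nsmul_eq_mul] at h4
  have h5 : (F.card : ℝ) * (1 - 1 / h) ≤ ((2 * h + 1).choose (h + 1) : ℝ) := by
    rw [h1c] at hw
    linarith
  have h6 : (F.card : ℝ) * (h - 1) = h * (F.card * (1 - 1 / h)) := by
    field_simp
  rw [h6]
  exact mul_le_mul_of_nonneg_left h5 hh0.le

end Pool.Agent.Lib.MP_78e117_co.Upper
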